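import Mathlib

/-!
# Words in parabolic elements of `SL₂(F)`
-/

open Polynomial Matrix

namespace Pool.Agent.RFGrowth

section

variable {F : Type} [Field F]

/-- The unipotent element `1 + u N(a)` with `N(a) = (a, -a²; 1, -a)`. -/
def par (a u : F) : Matrix.SpecialLinearGroup (Fin 2) F :=
  ⟨!![1 + u * a, -(u * a ^ 2); u, 1 - u * a], by
    rw [Matrix.det_fin_two_of]
    ring⟩

theorem par_coe (a u : F) : ((par a u : Matrix.SpecialLinearGroup (Fin 2) F) : Matrix (Fin 2) (Fin 2) F) =
    !![1 + u * a, -(u * a ^ 2); u, 1 - u * a] := rfl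

theorem par_mul (a u v : F) : par a u * par a v = par a (u + v) := by
  refine Matrix.SpecialLinearGroup.ext _ _ fun i j => ?_
  rw [Matrix.SpecialLinearGroup.coe_mul, par_coe, par_coe, par_coe]
  fin_cases i <;> fin_cases j <;> simp [Matrix.mul_apply, Fin.sum_univ_two] <;> ring

theorem par_zero (a : F) : par a 0 = 1 := by
  refine Matrix.SpecialLinearGroup.ext _ _ fun i j => ?_
  rw [par_coe, Matrix.SpecialLinearGroup.coe_one]
  fin_cases i <;> fin_cases j <;> simp

/-- The one-parameter subgroup. -/
def parHom (a : F) : Multiplicative F →* Matrix.SpecialLinearGroup (Fin 2) F where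
  toFun u := par a u.toAdd
  map_one' := par_zero a
  map_mul' u v := (par_mul a u.toAdd v.toAdd).symm

theorem par_zpow (a u : F) (e : ℤ) : par a u ^ e = par a (e * u) := by
  have h := map_zpow (parHom a) (Multiplicative.ofAdd u) e
  rw [← ofAdd_zsmul, zsmul_eq_mul] at h
  exact h.symm

/-- The first coordinate of `(1, -t)` times the product of the `par a (e u)`, as a polynomial
in `u`. -/
noncomputable def pol : List (F × F) → F → F[X]
  | [], _ => 1
  | x :: L, t => pol L t + C (x.2 * (x.1 - t)) * X * pol L x.1

theorem pol_natDegree (L : List (F × F)) : ∀ t, (pol L t).natDegree ≤ L.length := by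
  induction L with
  | nil => intro t; simp [pol]
  | cons x L ih =>
    intro t
    rw [pol, List.length_cons]
    refine (natDegree_add_le _ _).trans (max_le ((ih t).trans (Nat.le_succ _)) ?_)
    refine natDegree_mul_le.trans ?_
    have h1 : (C (x.2 * (x.1 - t)) * X : F[X]).natDegree ≤ 1 := by
      have := natDegree_C_mul_X_pow_le (x.2 * (x.1 - t)) 1
      rwa [pow_one] at this
    have h2 := ih x.1
    omega

theorem pol_coeff (L : List (F × F)) : ∀ t, (∀ x ∈ L, x.2 ≠ 0) →
    (L.map Prod.fst).IsChain (· ≠ ·) → (∀ x ∈ L.head?, x.1 ≠ t) →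
    (pol L t).coeff L.length ≠ 0 := by
  induction L with
  | nil => intro t _ _ _; simp [pol]
  | cons x L ih =>
    intro t h0 hch hhead
    rw [pol, List.length_cons, coeff_add, mul_assoc, coeff_C_mul, coeff_X_mul,
      coeff_eq_zero_of_natDegree_lt (lt_of_le_of_lt (pol_natDegree L t) (Nat.lt_succ_self _)),
      zero_add]
    have hx : x.1 ≠ t := hhead x (by simp)
    refine mul_ne_zero (mul_ne_zero (h0 x (by simp)) (sub_ne_zero.2 hx)) ?_
    refine ih x.1 (fun y hy => h0 y (List.mem_cons_of_mem _ hy)) ?_ ?_
    · rw [List.map_cons] at hch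
      exact hch.tail
    · intro y hy
      cases L with
      | nil => simp at hy
      | cons z L =>
        simp only [List.head?_cons, Option.mem_def, Option.some.injEq] at hy
        subst hy
        rw [List.map_cons, List.map_cons, List.isChain_cons_cons] at hch
        exact fun h => hch.1 h.symm

theorem pol_eval (L : List (F × F)) (u : F) : ∀ t,
    ((pol L t).eval u) = (![1, -t] ᵥ*
      (((L.map fun x => par x.1 (x.2 * u)).prod : Matrix.SpecialLinearGroup (Fin 2) F) :
        Matrix (Fin 2) (Fin 2) F)) 0 := by
  induction L with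
  | nil => intro t; simp [pol]
  | cons x L ih =>
    intro t
    rw [pol, List.map_cons, List.prod_cons, Matrix.SpecialLinearGroup.coe_mul, ← Matrix.vecMul_vecMul]
    have h1 : ![1, -t] ᵥ* (par x.1 (x.2 * u) : Matrix (Fin 2) (Fin 2) F) =
        ![1, -t] + (x.2 * (x.1 - t) * u) • ![1, -x.1] := by
      rw [par_coe]
      ext j
      fin_cases j <;> simp [Matrix.vecMul, dotProduct, Fin.sum_univ_two] <;> ring
    rw [h1, Matrix.add_vecMul, Matrix.smul_vecMul, Pi.add_apply, Pi.smul_apply, ← ih, ← ih]
    simp only [eval_add, eval_mul, eval_C, eval_X, smul_eq_mul]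

/-- The number of elements of `SL₂` over a finite field. -/
theorem card_le [Fintype F] :
    Nat.card (Matrix.SpecialLinearGroup (Fin 2) F) ≤ Fintype.card F ^ 3 := by
  classical
  have hinj : Function.Injective fun M : Matrix.SpecialLinearGroup (Fin 2) F =>
      ((M 0 0, M 0 1, if M 0 0 = 0 then M 1 1 else M 1 0) : F × F × F) := by
    intro M N h
    simp only [Prod.mk.injEq] at h
    obtain ⟨h1, h2, h3⟩ := h
    have dM := Matrix.det_fin_two (M : Matrix (Fin 2) (Fin 2) F)
    have dN := Matrix.det_fin_two (N : Matrix (Fin 2) (Fin 2) F)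
    rw [Matrix.SpecialLinearGroup.det_coe] at dM dN
    refine Matrix.SpecialLinearGroup.ext _ _ fun i j => ?_
    by_cases h0 : M 0 0 = 0
    · have h0' : N 0 0 = 0 := by rw [← h1]; exact h0
      rw [if_pos h0, if_pos h0'] at h3
      have hb : M 0 1 ≠ 0 := by
        intro hb
        rw [h0, hb] at dM
        simp at dM
      have h4 : M 1 0 = N 1 0 := by
        apply mul_left_cancel₀ hb
        rw [h0] at dM
        rw [h0'] at dN
        rw [h2]
        rw [h2] at dM
        linear_combination dM - dN
      fin_cases i <;> fin_cases j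
      · exact h1
      · exact h2
      · exact h4
      · exact h3
    · have h0' : ¬ N 0 0 = 0 := by rw [← h1]; exact h0
      rw [if_neg h0, if_neg h0'] at h3
      have h4 : M 1 1 = N 1 1 := by
        apply mul_left_cancel₀ h0
        rw [h2, h3] at dM
        rw [← h1] at dN
        linear_combination dN - dM
      fin_cases i <;> fin_cases j
      · exact h1
      · exact h2
      · exact h3
      · exact h4
  have h := Nat.card_le_card_of_injective _ hinj
  rw [Nat.card_prod, Nat.card_prod, Nat.card_eq_fintype_card (α := F)] at h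
  refine h.trans (le_of_eq ?_)
  ring

/-- The word is nontrivial for some value of the parameter. -/
theorem exists_ne_one [Fintype F] (L : List (F × F)) (hL : L ≠ [])
    (h0 : ∀ x ∈ L, x.2 ≠ 0) (hch : (L.map Prod.fst).IsChain (· ≠ ·))
    (hcard : L.length < Fintype.card F) :
    ∃ u : F, (L.map fun x => par x.1 (x.2 * u)).prod ≠ 1 := by
  classical
  obtain ⟨t, ht⟩ : ∃ t : F, ∀ x ∈ L.head?, x.1 ≠ t := by
    cases L with
    | nil => exact absurd rfl hL
    | cons x L =>
      obtain ⟨t, ht⟩ := exists_ne x.1
      exact ⟨t, fun y hy => by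
        simp only [List.head?_cons, Option.mem_def, Option.some.injEq] at hy
        subst hy
        exact ht.symm⟩
  by_contra hcon
  push Not at hcon
  have hlen : 0 < L.length := List.length_pos_iff.2 hL
  have hc := pol_coeff L t h0 hch ht
  have hP : pol L t - 1 ≠ 0 := by
    intro h
    have h1 := congrArg (fun q => coeff q L.length) h
    simp only [coeff_sub, coeff_one, coeff_zero] at h1
    rw [if_neg (by omega), sub_zero] at h1
    exact hc h1
  have hdeg : (pol L t - 1).natDegree ≤ L.length := by
    refine (natDegree_sub_le _ _).trans ?_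
    simp only [natDegree_one]
    exact max_le (pol_natDegree L t) (Nat.zero_le _)
  have hroots : ∀ u : F, (pol L t - 1).IsRoot u := by
    intro u
    rw [IsRoot.def, eval_sub, eval_one, pol_eval, hcon u]
    simp
  have h1 : (Finset.univ : Finset F).card ≤ (pol L t - 1).natDegree := by
    refine (Finset.card_le_card (t := (pol L t - 1).roots.toFinset) ?_).trans
      ((Multiset.toFinset_card_le _).trans (card_roots' _))
    intro u _
    rw [Multiset.mem_toFinset, mem_roots hP]
    exact hroots u
  rw [Finset.card_univ] at h1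
  omega

end

end Pool.Agent.RFGrowth
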