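import Mathlib

/-!
# A prime above `s` not dividing `m`
-/

open Filter Asymptotics Topology

namespace Pool.Agent.RFGrowth

theorem theta_half : ∃ N0 : ℕ, ∀ n : ℕ, N0 ≤ n → (n : ℝ) / 2 ≤ Chebyshev.theta n := by
  have h1 : (fun x : ℝ => Real.log (x + 1)) =o[atTop] fun x : ℝ => x := by
    have h2 : (fun x : ℝ => Real.log (x + 1)) =o[atTop] fun x : ℝ => x + 1 :=
      Real.isLittleO_log_id_atTop.comp_tendsto (tendsto_atTop_add_const_right _ 1 tendsto_id)
    refine h2.trans_isBigO ?_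
    refine IsBigO.of_bound 2 ?_
    filter_upwards [eventually_ge_atTop (1 : ℝ)] with x hx
    rw [Real.norm_of_nonneg (by linarith), Real.norm_of_nonneg (by linarith)]
    linarith
  have h3 : (fun x : ℝ => 2 * √x * Real.log x) =o[atTop] fun x : ℝ => x := by
    have h4 : (fun x : ℝ => Real.log x) =o[atTop] fun x : ℝ => x ^ (1 / 2 : ℝ) :=
      isLittleO_log_rpow_atTop (by norm_num)
    have h5 : (fun x : ℝ => 2 * √x * Real.log x) =o[atTop]
        fun x : ℝ => (2 * √x) * x ^ (1 / 2 : ℝ) :=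
      (isBigO_refl (fun x : ℝ => 2 * √x) atTop).mul_isLittleO h4
    refine h5.trans_isBigO ?_
    refine IsBigO.of_bound 2 ?_
    filter_upwards [eventually_ge_atTop (1 : ℝ)] with x hx
    have hx0 : 0 ≤ x := by linarith
    rw [← Real.sqrt_eq_rpow]
    have : 2 * √x * √x = 2 * x := by
      rw [mul_assoc, Real.mul_self_sqrt hx0]
    rw [this, Real.norm_of_nonneg (by linarith), Real.norm_of_nonneg (by linarith)]
  have h6 := (h1.add h3).bound (show (0 : ℝ) < 1 / 10 by norm_num)
  have h7 := h6.and (eventually_ge_atTop (1 : ℝ))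
  have h8 : ∀ᶠ n : ℕ in atTop, (n : ℝ) / 2 ≤ Chebyshev.theta n := by
    filter_upwards [tendsto_natCast_atTop_atTop.eventually h7] with n hn
    obtain ⟨hn, hn1⟩ := hn
    have hn0 : (0 : ℝ) ≤ n := by linarith
    rw [Real.norm_of_nonneg hn0] at hn
    have h9 := le_trans (Real.le_norm_self _) hn
    have h10 := Chebyshev.theta_ge n
    have h11 : (0.69 : ℝ) < Real.log 2 := by
      have := Real.log_two_gt_d9
      norm_num at this ⊢
      linarith
    nlinarith
  exact eventually_atTop.1 h8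

/-- There is a prime `p > s` not dividing `m` of size `O(s + log m)`. -/
theorem exists_prime : ∃ C : ℝ, 0 < C ∧ ∀ s m : ℕ, 1 ≤ s → 1 ≤ m →
    ∃ p : ℕ, p.Prime ∧ s < p ∧ ¬ p ∣ m ∧ (p : ℝ) ≤ C * (s + Real.log m) := by
  obtain ⟨N0, hN0⟩ := theta_half
  refine ⟨N0 + 6, by positivity, fun s m hs hm => ?_⟩
  have hs' : (1 : ℝ) ≤ s := by exact_mod_cast hs
  have hm' : (1 : ℝ) ≤ m := by exact_mod_cast hm
  have hlm : 0 ≤ Real.log m := Real.log_nonneg hm'
  set T : ℝ := s + Real.log m with hT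
  have hT1 : 1 ≤ T := by linarith
  set N : ℕ := ⌊4 * T⌋₊ + 1 + N0 with hN
  have hNT : 4 * T < N := by
    have := Nat.lt_floor_add_one (4 * T)
    rw [hN]
    push_cast
    have h0 : (0 : ℝ) ≤ N0 := Nat.cast_nonneg _
    linarith
  have hNle : (N : ℝ) ≤ (N0 + 6) * T := by
    have h1 : (⌊4 * T⌋₊ : ℝ) ≤ 4 * T := Nat.floor_le (by linarith)
    rw [hN]
    push_cast
    have h0 : (0 : ℝ) ≤ N0 := Nat.cast_nonneg _
    nlinarith
  by_contra hcon
  push Not at hcon
  have hdiv : ∀ p : ℕ, p.Prime → s < p → p ≤ N → p ∣ m := by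
    intro p hp hsp hpN
    by_contra hpm
    have h1 := hcon p hp hsp hpm
    have h2 : (p : ℝ) ≤ N := by exact_mod_cast hpN
    linarith
  have hth := hN0 N (by omega)
  have hsN : s ≤ N := by
    have : (s : ℝ) ≤ N := by linarith
    exact_mod_cast this
  have hprod : (∏ p ∈ (Finset.Ioc s N).filter Nat.Prime, p) ∣ m := by
    refine Finset.prod_primes_dvd m ?_ ?_
    · intro p hp
      exact (Finset.mem_filter.1 hp).2.prime
    · intro p hp
      rw [Finset.mem_filter, Finset.mem_Ioc] at hp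
      exact hdiv p hp.2 hp.1.1 hp.1.2
  have hlog : Real.log (∏ p ∈ (Finset.Ioc s N).filter Nat.Prime, p : ℕ) ≤ Real.log m := by
    refine Real.log_le_log ?_ (by exact_mod_cast Nat.le_of_dvd hm hprod)
    have : 0 < ∏ p ∈ (Finset.Ioc s N).filter Nat.Prime, p :=
      Finset.prod_pos fun p hp => (Finset.mem_filter.1 hp).2.pos
    exact_mod_cast this
  have hsplit : Chebyshev.theta N = Chebyshev.theta s +
      Real.log (∏ p ∈ (Finset.Ioc s N).filter Nat.Prime, p : ℕ) := by
    rw [Nat.cast_prod, Real.log_prod (fun p hp => by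
      have := (Finset.mem_filter.1 hp).2.pos
      positivity)]
    rw [Chebyshev.theta, Chebyshev.theta, Nat.floor_natCast, Nat.floor_natCast]
    rw [← Finset.sum_union]
    · congr 1
      ext p
      simp only [Finset.mem_union, Finset.mem_filter, Finset.mem_Ioc]
      constructor
      · rintro ⟨⟨h1, h2⟩, h3⟩
        by_cases h : p ≤ s
        · exact Or.inl ⟨⟨h1, h⟩, h3⟩
        · exact Or.inr ⟨⟨by omega, h2⟩, h3⟩
      · rintro (⟨⟨h1, h2⟩, h3⟩ | ⟨⟨h1, h2⟩, h3⟩)
        · exact ⟨⟨h1, by omega⟩, h3⟩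
        · exact ⟨⟨by omega, h2⟩, h3⟩
    · rw [Finset.disjoint_left]
      intro p hp hp'
      rw [Finset.mem_filter, Finset.mem_Ioc] at hp hp'
      omega
  have hths := Chebyshev.theta_le_log4_mul_x (x := (s : ℝ)) (by linarith)
  have hlog4 : Real.log 4 < 2 := by
    have h1 : Real.log 4 = 2 * Real.log 2 := by
      rw [show (4 : ℝ) = 2 ^ 2 by norm_num, Real.log_pow]
      norm_num
    have := Real.log_two_lt_d9
    rw [h1]
    norm_num at this ⊢
    linarith
  nlinarith

end Pool.Agent.RFGrowth
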